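import Pool.Agent.H.MP_000f96_co.C

set_option autoImplicit false
open Filter Asymptotics Pool.Agent.H.MP_000f96_co

namespace Pool.Agent.Results.MP_000f96_co.No

theorem result :
    ∃ (W : Type) (_ : Finite W) (H : SimpleGraph W),
      (∀ n : ℕ, M' H n ≤ 43813 * n + 7) ∧ (∀ c : ℕ, ∀ᶠ n in atTop, c * n ≤ M H n) ∧
      (∀ C : ℕ, ∀ᶠ n in atTop, C * M' H n < M H n) ∧
      ¬ ((fun n : ℕ => (M H n : ℝ)) =O[atTop] fun n : ℕ => (M' H n : ℝ)) := by
  have h2 : ∀ c : ℕ, ∀ᶠ n in atTop, c * n ≤ M HH n := fun c => eventually_atTop.2 (lower c)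
  have h3 : ∀ C : ℕ, ∀ᶠ n in atTop, C * M' HH n < M HH n := fun C => by
    filter_upwards [h2 (43820 * C + 1), eventually_ge_atTop 1] with n k1 k2
    have k3 := Nat.mul_le_mul_left C (upper' n)
    nlinarith [Nat.mul_le_mul_left C k2]
  refine ⟨WW, inferInstance, HH, upper', h2, h3, fun h => ?_⟩
  obtain ⟨c, hc⟩ := h.bound
  obtain ⟨n, k1, k2⟩ := (hc.and (h3 ⌈c⌉₊)).exists
  simp only [Real.norm_natCast] at k1
  have k3 : ((⌈c⌉₊ * M' HH n : ℕ) : ℝ) < M HH n := by exact_mod_cast k2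
  push_cast at k3
  have k4 : c * (M' HH n : ℝ) ≤ ⌈c⌉₊ * M' HH n :=
    mul_le_mul_of_nonneg_right (Nat.le_ceil c) (Nat.cast_nonneg _)
  linarith

end Pool.Agent.Results.MP_000f96_co.No
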